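import Pool.Agent.T2h93.LL.RE

/-!
Task CN of the project `MP_5ae62c_nt`: class number one for `GL_2`.
-/

set_option autoImplicit false

noncomputable section

open scoped Polynomial WithZero
open IsDedekindDomain WithZero

namespace Pool.Agent.T2h93.LL

open Pool.Agent.T2h66.LL
open Pool.Agent.T2h93.AL (up lo sw KO)

/-- an adele with given integral components -/
def mkA (x : ∀ v : Pl, Kv v) (hx : ∀ v : Pl, Valued.v (x v) ≤ (1 : ℤᵐ⁰)) : Af :=
  ⟨x, Filter.Eventually.of_forall hx⟩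

theorem mkA_apply (x : ∀ v : Pl, Kv v) (hx : ∀ v : Pl, Valued.v (x v) ≤ (1 : ℤᵐ⁰)) (v : Pl) :
    mkA x hx v = x v := rfl

theorem mul_apply_v (a b : Af) (v : Pl) : (a * b) v = a v * b v := rfl

theorem matmul_v (M N : Matrix (Fin 2) (Fin 2) Af) (i j : Fin 2) (v : Pl) :
    (M * N) i j v = M i 0 v * N 0 j v + M i 1 v * N 1 j v := by
  rw [Matrix.mul_apply, Fin.sum_univ_two]
  rfl

theorem one_v (i j : Fin 2) (v : Pl) :
    (1 : Matrix (Fin 2) (Fin 2) Af) i j v = (1 : Matrix (Fin 2) (Fin 2) (Kv v)) i j := by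
  fin_cases i <;> fin_cases j <;> rfl

/-- an element of `GL_2(Ô)` with given components -/
theorem mkGL (k : ∀ v : Pl, GL (Fin 2) (Kv v)) (hk : ∀ v, k v ∈ GO (Valued.v : Valuation (Kv v) ℤᵐ⁰)) :
    ∃ K' ∈ Kf, ∀ v, Matrix.GeneralLinearGroup.map (ev v) K' = k v := by
  let M : Matrix (Fin 2) (Fin 2) Af :=
    Matrix.of fun i j => mkA (fun v => k v i j) (fun v => (hk v i j).1)
  let N : Matrix (Fin 2) (Fin 2) Af :=
    Matrix.of fun i j => mkA (fun v => (k v)⁻¹.1 i j) (fun v => (hk v i j).2)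
  have hM : ∀ i j v, M i j v = k v i j := fun _ _ _ => rfl
  have hN : ∀ i j v, N i j v = (k v)⁻¹.1 i j := fun _ _ _ => rfl
  have h1 : M * N = 1 := by
    ext i j v
    rw [matmul_v, hM, hM, hN, hN, one_v, ← (k v).mul_inv, Matrix.mul_apply, Fin.sum_univ_two]
  have h2 : N * M = 1 := by
    ext i j v
    rw [matmul_v, hM, hM, hN, hN, one_v, ← (k v).inv_mul, Matrix.mul_apply, Fin.sum_univ_two]
  refine ⟨⟨M, N, h1, h2⟩, fun v i j => ⟨(hk v i j).1, (hk v i j).2⟩, fun v => ?_⟩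
  ext i j
  rfl

theorem nU_mem_Kf {o : Af} (ho : ∀ v : Pl, Valued.v (o v) ≤ (1 : ℤᵐ⁰)) : nU o ∈ Kf := by
  intro v i j
  have h0 : Valued.v ((0 : Af) v) ≤ (1 : ℤᵐ⁰) := by
    have : (0 : Af) v = 0 := rfl
    rw [this, map_zero]; exact zero_le
  have h1 : Valued.v ((1 : Af) v) ≤ (1 : ℤᵐ⁰) := by
    have : (1 : Af) v = 1 := rfl
    rw [this, map_one]
  have h2 : Valued.v ((-o : Af) v) ≤ (1 : ℤᵐ⁰) := by
    have : (-o : Af) v = -(o v) := rfl
    rw [this, Valuation.map_neg]; exact ho v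
  constructor
  · fin_cases i <;> fin_cases j <;> simp [nU]
    · exact h1
    · exact ho v
    · exact h0
    · exact h1
  · have : ∀ i j, ((nU o)⁻¹ : GL (Fin 2) Af) i j = !![1, -o; 0, 1] i j := fun _ _ => rfl
    rw [this]
    fin_cases i <;> fin_cases j <;> simp
    · exact h1
    · exact h2
    · exact h0
    · exact h1

theorem bor_mem_Kf {a d : Afˣ} (ha : ∀ v : Pl, Valued.v ((a : Af) v) = (1 : ℤᵐ⁰))
    (hd : ∀ v : Pl, Valued.v ((d : Af) v) = (1 : ℤᵐ⁰)) : bor a 0 d ∈ Kf := by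
  intro v i j
  have h0 : Valued.v ((0 : Af) v) ≤ (1 : ℤᵐ⁰) := by
    have : (0 : Af) v = 0 := rfl
    rw [this, map_zero]; exact zero_le
  have hinv : ∀ a : Afˣ, (∀ v : Pl, Valued.v ((a : Af) v) = (1 : ℤᵐ⁰)) →
      Valued.v (((a⁻¹ : Afˣ) : Af) v) ≤ (1 : ℤᵐ⁰) := by
    intro a ha
    have h1 : (a : Af) v * ((a⁻¹ : Afˣ) : Af) v = 1 := by
      rw [← mul_apply_v, Units.mul_inv]; rfl
    have h2 := congrArg (Valued.v : Valuation (Kv v) ℤᵐ⁰) h1
    rw [map_mul, ha v, one_mul, map_one] at h2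
    exact h2.le
  constructor
  · fin_cases i <;> fin_cases j <;> simp [bor]
    · exact (ha v).le
    · exact h0
    · exact h0
    · exact (hd v).le
  · have : ∀ i j, ((bor a 0 d)⁻¹ : GL (Fin 2) Af) i j
        = !![((a⁻¹ : Afˣ) : Af), -((a⁻¹ : Afˣ) : Af) * 0 * ((d⁻¹ : Afˣ) : Af); 0,
          ((d⁻¹ : Afˣ) : Af)] i j := fun _ _ => rfl
    rw [this]
    fin_cases i <;> fin_cases j <;> simp
    · exact hinv a ha
    · exact h0
    · exact h0
    · exact hinv d hd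

theorem t_CN : S_AQ → S_ID → S_CN := by
  intro hAQ hID h
  -- the local Iwasawa decompositions
  have loc : ∀ v : Pl, ∃ k : GL (Fin 2) (Kv v), k ∈ GO (Valued.v : Valuation (Kv v) ℤᵐ⁰) ∧
      (Matrix.GeneralLinearGroup.map (ev v) h * k⁻¹ : GL (Fin 2) (Kv v)) 1 0 = 0 := by
    intro v
    obtain ⟨a, d, b, k, hk, e⟩ := Pool.Agent.T2h93.AL.iwasawa
      (v := (Valued.v : Valuation (Kv v) ℤᵐ⁰)) (Matrix.GeneralLinearGroup.map (ev v) h)
    refine ⟨k, GO_of_KO hk, ?_⟩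
    rw [e, mul_assoc, mul_inv_cancel, mul_one]
    rfl
  choose k hk hk0 using loc
  obtain ⟨k', hk', hkv⟩ := mkGL k hk
  set B : GL (Fin 2) Af := h * k'⁻¹ with hB
  have hB0 : B 1 0 = 0 := by
    apply FiniteAdeleRing.ext
    intro v
    have h1 : (B 1 0) v = (Matrix.GeneralLinearGroup.map (ev v) B) 1 0 := rfl
    have h2 : Matrix.GeneralLinearGroup.map (ev v) B
        = Matrix.GeneralLinearGroup.map (ev v) h * (k v)⁻¹ := by
      rw [hB, map_mul, map_inv, hkv]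
    rw [h1, h2, hk0]
    rfl
  -- the diagonal entries are units
  have hdet : IsUnit (B 0 0 * B 1 1) := by
    have h1 : IsUnit (B : Matrix (Fin 2) (Fin 2) Af).det :=
      (Matrix.isUnit_iff_isUnit_det _).mp B.isUnit
    rw [Matrix.det_fin_two, hB0, mul_zero, sub_zero] at h1
    exact h1
  obtain ⟨α, hα⟩ := isUnit_of_mul_isUnit_left hdet
  obtain ⟨δ, hδ⟩ := isUnit_of_mul_isUnit_right hdet
  obtain ⟨a, ha⟩ := hID α
  obtain ⟨d, hd⟩ := hID δ
  set a' : Afˣ := Units.map (algebraMap K Af : K →* Af) a with ha'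
  set d' : Afˣ := Units.map (algebraMap K Af : K →* Af) d with hd'
  have one : ∀ (x : Afˣ) (y : Kˣ), (∀ v : Pl, Valued.v ((x : Af) v)
      = (Valued.v (algebraMap K Af y v) : ℤᵐ⁰)) →
      ∀ v : Pl, Valued.v (((x / Units.map (algebraMap K Af : K →* Af) y : Afˣ) : Af) v)
        = (1 : ℤᵐ⁰) := by
    intro x y hxy v
    set q : Afˣ := x / Units.map (algebraMap K Af : K →* Af) y with hq
    have h1 : x = q * Units.map (algebraMap K Af : K →* Af) y := by rw [hq, div_mul_cancel]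
    have h2 : (x : Af) v = (q : Af) v * (algebraMap K Af y) v := by
      conv_lhs => rw [h1]
      rfl
    have h3 := hxy v
    rw [h2, map_mul] at h3
    have h4 : (algebraMap K Af (y : K)) v ≠ 0 := by
      have : (algebraMap K Af (y : K)) v * (algebraMap K Af ((y⁻¹ : Kˣ) : K)) v = 1 := by
        rw [← mul_apply_v, ← map_mul, Units.mul_inv, map_one]; rfl
      exact left_ne_zero_of_mul_eq_one this
    have h5 : Valued.v ((algebraMap K Af (y : K)) v) ≠ (0 : ℤᵐ⁰) := by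
      rwa [ne_eq, map_eq_zero]
    exact mul_right_cancel₀ h5 (by rw [h3, one_mul])
  have hu1 := one α a ha
  have hu2 := one δ d hd
  rw [← ha'] at hu1
  rw [← hd'] at hu2
  set u1 : Afˣ := α / a' with hu1'
  set u2 : Afˣ := δ / d' with hu2'
  obtain ⟨c, hc⟩ := hAQ.2 (B 0 1 * ((a'⁻¹ * u2⁻¹ : Afˣ) : Af))
  set o : Af := B 0 1 * ((a'⁻¹ * u2⁻¹ : Afˣ) : Af) - algebraMap K Af c with ho
  refine ⟨bor a 0 d * nU c, nU o * bor u1 0 u2 * k',
    Kf.mul_mem (Kf.mul_mem (nU_mem_Kf hc) (bor_mem_Kf hu1 hu2)) hk', ?_⟩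
  have h3 : h = B * k' := by rw [hB, inv_mul_cancel_right]
  rw [h3, ← mul_assoc]
  congr 1
  ext i j : 2
  simp only [Units.val_mul]
  have e1 : (α : Af) = a' * u1 := by
    rw [← Units.val_mul, hu1', mul_div_cancel]
  have e2 : (δ : Af) = d' * u2 := by
    rw [← Units.val_mul, hu2', mul_div_cancel]
  have e3 : (a' : Af) = algebraMap K Af a := rfl
  have e4 : (d' : Af) = algebraMap K Af d := rfl
  have e5 : B 0 1 = a' * u2 * (o + algebraMap K Af c) := by
    rw [ho, sub_add_cancel, mul_comm (a' : Af), ← mul_assoc, ← mul_comm (B 0 1)]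
    rw [mul_assoc, mul_assoc, ← Units.val_mul, ← Units.val_mul]
    simp
  fin_cases i <;> fin_cases j
  · simp [Matrix.mul_apply, Fin.sum_univ_two, nU, bor, ← hα, e1, e3]
  · change (B : Matrix (Fin 2) (Fin 2) Af) 0 1 = _
    rw [e5]
    simp [Matrix.mul_apply, Fin.sum_univ_two, nU, bor, e3]
    ring
  · simpa [Matrix.mul_apply, Fin.sum_univ_two, nU, bor] using hB0
  · simp [Matrix.mul_apply, Fin.sum_univ_two, nU, bor, ← hδ, e2, e4]

end Pool.Agent.T2h93.LL
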