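import Pool.Agent.T2h66.LL.Stm

/-!
Task UQ of the project `MP_5ae62c_nt`: uniqueness of the invariant `n`.
-/

set_option autoImplicit false

noncomputable section

open scoped Polynomial WithZero
open IsDedekindDomain WithZero

namespace Pool.Agent.T2h93.LL

open Pool.Agent.T2h66.LL

theorem GO_det_le {F : Type} [Field F] {v : Valuation F ℤᵐ⁰} {k : GL (Fin 2) F}
    (hk : k ∈ GO v) : v (k : Matrix (Fin 2) (Fin 2) F).det ≤ 1 := by
  rw [Matrix.det_fin_two]
  refine (v.map_sub _ _).trans (max_le ?_ ?_)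
  · rw [map_mul]; exact mul_le_one' (hk _ _).1 (hk _ _).1
  · rw [map_mul]; exact mul_le_one' (hk _ _).1 (hk _ _).1

theorem GO_det {F : Type} [Field F] {v : Valuation F ℤᵐ⁰} {k : GL (Fin 2) F}
    (hk : k ∈ GO v) : v (k : Matrix (Fin 2) (Fin 2) F).det = 1 := by
  have h1 := GO_det_le hk
  have h2 := GO_det_le ((GO v).inv_mem hk)
  have h3 : (k : Matrix (Fin 2) (Fin 2) F).det
      * ((k⁻¹ : GL (Fin 2) F) : Matrix (Fin 2) (Fin 2) F).det = 1 := by
    rw [← Matrix.det_mul, ← Units.val_mul, mul_inv_cancel]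
    simp
  have h4 := congrArg v h3
  rw [map_mul, map_one] at h4
  refine le_antisymm h1 ?_
  rw [← h4]
  exact mul_le_of_le_one_right' h2

theorem gen10 {F : Type} [Field F] (l : GL (Fin 2) F) (y z w : Fˣ) :
    ((da y * l * sc z * da w : GL (Fin 2) F) 1 0) = l 1 0 * w * z := by
  simp only [Units.val_mul, da, sc, bor, Matrix.mul_apply, Fin.sum_univ_two]
  simp
  ring

theorem gen11 {F : Type} [Field F] (l : GL (Fin 2) F) (y z w : Fˣ) :
    ((da y * l * sc z * da w : GL (Fin 2) F) 1 1) = l 1 1 * z := by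
  simp only [Units.val_mul, da, sc, bor, Matrix.mul_apply, Fin.sum_univ_two]
  simp

theorem uq_aux (hIN : S_IN) (hIF : S_IF) (m n : ℕ) (hmn : n < m) (γ : GL (Fin 2) K) (z : Kiˣ)
    (kf : GL (Fin 2) Af) (hkf : kf ∈ Kf) (k : GL (Fin 2) Ki)
    (hk : k ∈ GO (Valued.v : Valuation Ki ℤᵐ⁰))
    (h : atI (da (tI ^ m)) = diagK γ * atI (da (tI ^ n)) * (kf, sc z * k)) : False := by
  have h1 : (1 : GL (Fin 2) Af) = Matrix.GeneralLinearGroup.map (algebraMap K Af) γ * kf := by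
    have := congrArg Prod.fst h
    simpa [atI, diagK] using this
  have h2 : (da (tI ^ m) : GL (Fin 2) Ki)
      = Matrix.GeneralLinearGroup.map (algebraMap K Ki) γ * da (tI ^ n) * (sc z * k) := by
    have := congrArg Prod.snd h
    simpa [atI, diagK] using this
  have hkf' : kf⁻¹ = Matrix.GeneralLinearGroup.map (algebraMap K Af) γ := by
    rw [inv_eq_iff_mul_eq_one, ]
    exact (mul_eq_one_iff_eq_inv.mpr (eq_inv_of_mul_eq_one_right h1.symm))
  have hkf'' : kf = Matrix.GeneralLinearGroup.map (algebraMap K Af) γ⁻¹ := by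
    rw [map_inv, ← hkf', inv_inv]
  -- the entries of `γ` and of its inverse are polynomials
  have hg : ∀ i j, ∃ a : A, algebraMap A K a = γ i j := by
    intro i j
    apply hIN
    intro v
    have := (hkf v i j).2
    rw [hkf'] at this
    exact this
  have hg' : ∀ i j, ∃ a : A, algebraMap A K a = (γ⁻¹ : GL (Fin 2) K) i j := by
    intro i j
    apply hIN
    intro v
    have := (hkf v i j).1
    rw [hkf''] at this
    exact this
  choose a ha using hg
  choose b hb using hg'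
  -- the determinant of `γ`
  have hinj : Function.Injective (algebraMap A K) := IsFractionRing.injective A K
  have hdet : (a 0 0 * a 1 1 - a 0 1 * a 1 0) * (b 0 0 * b 1 1 - b 0 1 * b 1 0) = 1 := by
    apply hinj
    simp only [map_mul, map_sub, map_one, ha, hb]
    have h3 : (γ : Matrix (Fin 2) (Fin 2) K).det
        * ((γ⁻¹ : GL (Fin 2) K) : Matrix (Fin 2) (Fin 2) K).det = 1 := by
      rw [← Matrix.det_mul, ← Units.val_mul, mul_inv_cancel]
      simp
    rw [Matrix.det_fin_two, Matrix.det_fin_two] at h3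
    exact h3
  set D : A := a 0 0 * a 1 1 - a 0 1 * a 1 0 with hD
  have hD0 : D ≠ 0 := left_ne_zero_of_mul_eq_one hdet
  have hDdeg : D.natDegree = 0 := by
    have hE0 := right_ne_zero_of_mul_eq_one hdet
    have := congrArg Polynomial.natDegree hdet
    rw [Polynomial.natDegree_mul hD0 hE0, Polynomial.natDegree_one] at this
    omega
  have hvD : Valued.v (aI D) = (1 : ℤᵐ⁰) := by
    rw [hIF.2.2.2 D hD0, hDdeg]
    simp
  -- determinants in `h2`
  have hvt : ∀ j : ℕ, Valued.v (((tI ^ j : Kiˣ)) : Ki) = exp (j : ℤ) := by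
    intro j
    have h1 := hIF.1
    have h2 : ((pI : Kiˣ) : Ki) = ((tI : Kiˣ) : Ki)⁻¹ := by
      rw [pI, Units.val_inv_eq_inv_val]
    rw [h2, map_inv₀] at h1
    have h3 : Valued.v ((tI : Kiˣ) : Ki) = exp (1 : ℤ) := by
      rw [← inv_inv (Valued.v ((tI : Kiˣ) : Ki)), h1, ← WithZero.exp_neg, neg_neg]
    rw [Units.val_pow_eq_pow_val, map_pow, h3, ← WithZero.exp_nsmul]
    simp
  have hdet2 : ((tI ^ m : Kiˣ) : Ki) = aI D * (tI ^ n : Kiˣ) * ((z : Ki) ^ 2
      * (k : Matrix (Fin 2) (Fin 2) Ki).det) := by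
    have := congrArg (fun g : GL (Fin 2) Ki => (g : Matrix (Fin 2) (Fin 2) Ki).det) h2
    simp only [Units.val_mul, Matrix.det_mul] at this
    have e1 : ∀ y : Kiˣ, ((da y : GL (Fin 2) Ki) : Matrix (Fin 2) (Fin 2) Ki).det = y := by
      intro y
      simp [da, bor, Matrix.det_fin_two]
    have e2 : ((sc z : GL (Fin 2) Ki) : Matrix (Fin 2) (Fin 2) Ki).det = (z : Ki) ^ 2 := by
      simp [sc, bor, Matrix.det_fin_two, pow_two]
    have e3 : ((Matrix.GeneralLinearGroup.map (algebraMap K Ki) γ : GL (Fin 2) Ki) :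
        Matrix (Fin 2) (Fin 2) Ki).det = aI D := by
      rw [Matrix.det_fin_two, hD]
      simp only [Matrix.GeneralLinearGroup.map_apply, aI, RingHom.comp_apply, map_sub, map_mul,
        ha]
    rw [e1, e1, e2, e3] at this
    exact this
  have hvz : (1 : ℤᵐ⁰) < Valued.v (z : Ki) := by
    have := congrArg (Valued.v : Valuation Ki ℤᵐ⁰) hdet2
    rw [map_mul, map_mul, map_mul, map_pow, hvD, GO_det hk, hvt, hvt, one_mul, mul_one] at this
    by_contra hle
    have hle : Valued.v (z : Ki) ≤ (1 : ℤᵐ⁰) := not_lt.mp hle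
    have h5 : Valued.v (z : Ki) ^ 2 ≤ (1 : ℤᵐ⁰) := pow_le_one' hle 2
    have h6 : exp (m : ℤ) ≤ exp (n : ℤ) := by
      rw [this]
      exact mul_le_of_le_one_right' h5
    have := exp_le_exp.mp h6
    omega
  have hvzi : Valued.v ((z : Ki)⁻¹) < (1 : ℤᵐ⁰) := by
    rw [map_inv₀]
    exact inv_lt_one_of_one_lt₀ hvz
  -- the second row of `γ`
  have hg2 : (Matrix.GeneralLinearGroup.map (algebraMap K Ki) γ : GL (Fin 2) Ki)
      = da (tI ^ m) * k⁻¹ * sc z⁻¹ * da ((tI ^ n)⁻¹) := by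
    have e1 : (sc z⁻¹ : GL (Fin 2) Ki) = (sc z)⁻¹ := by
      ext i j
      fin_cases i <;> fin_cases j <;> simp [sc, bor]
    have e2 : (da ((tI ^ n)⁻¹) : GL (Fin 2) Ki) = (da (tI ^ n))⁻¹ := by
      ext i j
      fin_cases i <;> fin_cases j <;> simp [da, bor]
    rw [h2, e1, e2]
    group
  have row : ∀ j, Valued.v ((Matrix.GeneralLinearGroup.map (algebraMap K Ki) γ :
      GL (Fin 2) Ki) 1 j) < (1 : ℤᵐ⁰) := by
    intro j
    have hki := fun i j => (hk i j).2
    have ht1 : Valued.v (((tI ^ n : Kiˣ) : Ki)⁻¹) ≤ (1 : ℤᵐ⁰) := by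
      rw [map_inv₀, hvt, ← WithZero.exp_neg, ← exp_zero]
      exact exp_le_exp.mpr (by omega)
    rw [hg2]
    fin_cases j
    · have : ((da (tI ^ m) * k⁻¹ * sc z⁻¹ * da ((tI ^ n)⁻¹) : GL (Fin 2) Ki) 1 0)
          = (k⁻¹ : GL (Fin 2) Ki) 1 0 * ((tI ^ n : Kiˣ) : Ki)⁻¹ * (z : Ki)⁻¹ := by
        rw [gen10, Units.val_inv_eq_inv_val, Units.val_inv_eq_inv_val]
      change Valued.v ((da (tI ^ m) * k⁻¹ * sc z⁻¹ * da ((tI ^ n)⁻¹) : GL (Fin 2) Ki) 1 0) < 1
      rw [this, map_mul, map_mul]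
      exact mul_lt_one_of_nonneg_of_lt_one_right (mul_le_one' (hki 1 0) ht1) zero_le hvzi
    · have : ((da (tI ^ m) * k⁻¹ * sc z⁻¹ * da ((tI ^ n)⁻¹) : GL (Fin 2) Ki) 1 1)
          = (k⁻¹ : GL (Fin 2) Ki) 1 1 * (z : Ki)⁻¹ := by
        rw [gen11, Units.val_inv_eq_inv_val]
      change Valued.v ((da (tI ^ m) * k⁻¹ * sc z⁻¹ * da ((tI ^ n)⁻¹) : GL (Fin 2) Ki) 1 1) < 1
      rw [this, map_mul]
      exact mul_lt_one_of_nonneg_of_lt_one_right (hki 1 1) zero_le hvzi
  have hz : ∀ j, a 1 j = 0 := by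
    intro j
    by_contra h0
    have h3 := row j
    have h4 : (Matrix.GeneralLinearGroup.map (algebraMap K Ki) γ : GL (Fin 2) Ki) 1 j
        = aI (a 1 j) := by
      simp only [Matrix.GeneralLinearGroup.map_apply, aI, RingHom.comp_apply, ha]
    rw [h4, hIF.2.2.2 _ h0, ← exp_zero] at h3
    have := exp_lt_exp.mp h3
    omega
  apply hD0
  rw [hD, hz 0, hz 1]
  ring

theorem t_UQ : S_IN → S_IF → S_UQ := by
  intro hIN hIF m n γ z kf hkf k hk h
  rcases lt_trichotomy n m with hmn | hmn | hmn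
  · exact (uq_aux hIN hIF m n hmn γ z kf hkf k hk h).elim
  · exact hmn.symm
  · refine (uq_aux hIN hIF n m hmn γ⁻¹ z⁻¹ kf⁻¹ (Kf.inv_mem hkf) k⁻¹
      ((GO _).inv_mem hk) ?_).elim
    have e1 : (sc z⁻¹ : GL (Fin 2) Ki) = (sc z)⁻¹ := by
      ext i j
      fin_cases i <;> fin_cases j <;> simp [sc, bor]
    have e2 : (sc z)⁻¹ * k⁻¹ = (sc z * k)⁻¹ := by
      rw [mul_inv_rev]
      have : ∀ g : GL (Fin 2) Ki, sc z * g = g * sc z := by
        intro g
        ext i j
        simp only [Units.val_mul]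
        fin_cases i <;> fin_cases j <;>
          simp [sc, bor, Matrix.mul_apply, Fin.sum_univ_two, mul_comm]
      rw [← mul_inv_rev, ← mul_inv_rev, this]
    rw [e1, e2, h, map_inv]
    have e3 : (kf⁻¹, (sc z * k)⁻¹) = ((kf, sc z * k) : GA)⁻¹ := rfl
    rw [e3]
    group

end Pool.Agent.T2h93.LL
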