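import Pool.Agent.T2h66.LL.Stm
import Pool.Agent.T2h93.AL.Red

/-!
Task RE of the project `MP_5ae62c_nt`: reduction theory at infinity.
-/

set_option autoImplicit false

noncomputable section

open scoped Polynomial WithZero
open IsDedekindDomain WithZero

namespace Pool.Agent.T2h93.LL

open Pool.Agent.T2h66.LL
open Pool.Agent.T2h93.AL (up lo sw KO)

theorem GO_of_KO {F : Type} [Field F] {v : Valuation F ℤᵐ⁰} {k : GL (Fin 2) F}
    (h : KO v k) : k ∈ GO v := fun i j => ⟨h.1 i j, h.inv.1 i j⟩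

theorem up_eq_bor {F : Type} [Field F] (a d : Fˣ) (b : F) : up a d b = bor a b d :=
  Units.ext rfl

theorem sw_eq_om {F : Type} [Field F] : (sw : GL (Fin 2) F) = om := Units.ext rfl

theorem v_tI (h : S_IF) : Valued.v ((tI : Kiˣ) : Ki) = exp (1 : ℤ) := by
  have h1 := h.1
  have h2 : ((pI : Kiˣ) : Ki) = ((tI : Kiˣ) : Ki)⁻¹ := by
    rw [pI, Units.val_inv_eq_inv_val]
  rw [h2, map_inv₀] at h1
  rw [← inv_inv (Valued.v ((tI : Kiˣ) : Ki)), h1, ← WithZero.exp_neg, neg_neg]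

theorem t_RE : S_IF → S_RE := by
  intro hIF h
  obtain ⟨γ, ⟨γ', rfl⟩, n, z, k, hk, e⟩ :=
    Pool.Agent.T2h93.AL.red (v := (Valued.v : Valuation Ki ℤᵐ⁰)) (Set.range aI)
      (Matrix.GeneralLinearGroup.map aI : GL (Fin 2) A →* GL (Fin 2) Ki).range
      ⟨om, by
        rw [sw_eq_om]
        ext i j
        fin_cases i <;> fin_cases j <;> simp [om]⟩
      (by
        rintro _ ⟨a, rfl⟩
        refine ⟨nU a, ?_⟩
        ext i j
        rw [Pool.Agent.T2h93.AL.up_coe]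
        fin_cases i <;> fin_cases j <;> simp [nU])
      (by
        intro x
        obtain ⟨a, ha⟩ := hIF.2.2.1 x
        exact ⟨_, ⟨a, rfl⟩, ha⟩)
      tI (v_tI hIF) h
  refine ⟨γ', n, z, k, GO_of_KO hk, ?_⟩
  rw [e]
  rw [up_eq_bor, up_eq_bor]
  simp only [da, sc, mul_assoc]

end Pool.Agent.T2h93.LL
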